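import Pool.Agent.TH742.TC.Up2
import Pool.Agent.TH742.TC.Low

set_option autoImplicit false

/-!
The degree `0'` of the halting set is the degree of topological categoricity of the discrete
computable Polish space `ℕ`.
-/

namespace Pool.Agent.Results.MP_55a818_lc.ZeroPrimeIsDegree

open Pool.Agent.TH742.TC
open Pool.Agent.Helper583.TT (CMS)
open Pool.Agent.Helper583.TC (Red)
open Pool.Agent.H109R3.TC

/-- The halting set `K` is c.e., not computable and Turing complete among the c.e. sets, and its
degree is the degree of topological categoricity of the computable Polish space `ℕ` (with the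
discrete topology). The last clause says the same with the variant of categoricity in which the
homeomorphism and its inverse are both required to be computable relative to the oracle. -/
theorem result : REPred K ∧ ¬ ComputablePred K ∧
    (∀ A : ℕ → Prop, REPred A → Red (chi A) (chi K)) ∧
    (∃ M : CMS, Nonempty (M.Y ≃ₜ ℕ)) ∧
    (Cat ℕ (chi K) ∧ ∀ a : ℕ → ℕ, Cat ℕ a → Red (chi K) a) ∧
    (CatBoth ℕ (chi K) ∧ ∀ a : ℕ → ℕ, CatBoth ℕ a → Red (chi K) a) := by
  refine ⟨K_re, ?_, fun A hA => K_complete hA, ⟨Std, std_homeo⟩,
    ⟨catBoth_nat.cat, fun a h => lower h⟩, ⟨catBoth_nat, fun a h => lower h.cat⟩⟩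
  intro h
  have h1 : Computable fun c : Nat.Partrec.Code => Nat.pair (Encodable.encode c) 0 :=
    Primrec₂.natPair.to_comp.comp Computable.encode (Computable.const 0)
  refine ComputablePred.halting_problem 0 ?_
  refine (Pool.Agent.Helper578.JD.RE.cp_comp h h1).of_eq fun c => ?_
  unfold K
  rw [Nat.unpair_pair]
  dsimp only
  rw [Denumerable.ofNat_encode]

end Pool.Agent.Results.MP_55a818_lc.ZeroPrimeIsDegree
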